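import Pool.Agent.W744.GL.Asm
import Pool.Agent.W154.GL.ULCH
import Pool.Agent.W303.GL.AN
import Pool.Agent.W376.GL.SP
import Pool.Agent.W138.GL.G0
import Pool.Agent.W237.GL.SEPM
import Pool.Agent.W451.GL.SEP
import Pool.Agent.W196.GL.DIV
import Pool.Agent.W356.GL.IF
import Pool.Agent.W318.GL.INT
import Pool.Agent.W366.GL.PART
import Pool.Agent.W381.GL.FLOW
import Pool.Agent.W509.GL.CL
import Pool.Agent.W237.GL.UL2
import Pool.Agent.W612.GL.TP
import Pool.Agent.W899.GL.SPLIT
import Pool.Agent.W959.GL.TRIV
import Pool.Agent.W803.GL.DISC
import Pool.Agent.W585.GL.ZORN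

/-!
# A point with trivial Gleason part in the Shilov boundaries of two different nontrivial parts

The definitions are those of `Pool.Agent.Results.MP_264cca_an.TrivialPart`: `Hinf` is the algebra
of bounded analytic functions on the open unit disc, `MaxSpace` its maximal ideal space with the
Gelfand topology, `rho` the pseudohyperbolic distance, `part x` the Gleason part of `x`, and
`shilov P` the Shilov boundary of the algebra of restrictions of `Hinf` to `P` (the intersection
of all its closed boundaries in the closure of `P`).

The theorem answers the second question in the negative: the nontrivial part `P` with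
`m ∈ ∂ P` need not be unique.
-/

set_option autoImplicit false

namespace Pool.Agent.Results.MP_264cca_an.NotUnique

open Pool.Agent.Results.MP_264cca_an.TrivialPart

/-- There are a point `m` of the maximal ideal space of `H^∞` whose Gleason part is trivial and
two different nontrivial Gleason parts such that `m` lies in the Shilov boundary of each. -/
theorem result :
    ∃ m x y : MaxSpace, part m = {m} ∧ part x ≠ {x} ∧ part y ≠ {y} ∧ part x ≠ part y ∧
      m ∈ shilov (part x) ∧ m ∈ shilov (part y) := by
  have hU := Pool.Agent.W154.GL.ULCH.main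
  have hA := Pool.Agent.W303.GL.AN.main
  have hSP := Pool.Agent.W376.GL.SP.main
  have hG := Pool.Agent.W138.GL.G0.main
  have hSM := Pool.Agent.W237.GL.SEPM.main
  have hS := Pool.Agent.W451.GL.SEP.main hU hSM
  have hDiv := Pool.Agent.W196.GL.DIV.main hG
  have hI := Pool.Agent.W356.GL.IF.main
  have hInt := Pool.Agent.W318.GL.INT.main hU hG hDiv hI
  have hP := Pool.Agent.W366.GL.PART.main hU hSP hG hS hInt
  have hT := Pool.Agent.W959.GL.TRIV.main hU Pool.Agent.W612.GL.TP.main
    Pool.Agent.W899.GL.SPLIT.main
  exact Pool.Agent.W744.GL.main hU hG hP hS Pool.Agent.W381.GL.FLOW.main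
    (Pool.Agent.W509.GL.CL.main hU) (Pool.Agent.W237.GL.UL2.main hU) hT
    (Pool.Agent.W803.GL.DISC.main hU hA) Pool.Agent.W585.GL.ZORN.main

end Pool.Agent.Results.MP_264cca_an.NotUnique
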